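import Pool.Agent.Q80.AC.Stm

/-!
# Project AC of helper80: the operators `lamM` (jobs EN2, LTV, LSA)
-/

set_option autoImplicit false

open MeasureTheory Topology Filter
open scoped ENNReal NNReal ComplexConjugate

noncomputable section

namespace Pool.Agent.Q198.AC

open Pool.Agent.Q80.AC

variable {H : Type} [Group H] [TopologicalSpace H] [IsTopologicalGroup H] [LocallyCompactSpace H]
  [SecondCountableTopology H] [T2Space H] [MeasurableSpace H] [BorelSpace H]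

omit [LocallyCompactSpace H] [SecondCountableTopology H] [T2Space H] in
lemma lam_mul (m : Measure H) [m.IsHaarMeasure] (s r : H) (ξ : Lp ℂ 2 m) :
    lam m s (lam m r ξ) = lam m (s * r) ξ := by
  refine Lp.ext ?_
  have h1 : (lam m s (lam m r ξ) : H → ℂ) =ᵐ[m] (lam m r ξ : H → ℂ) ∘ fun x => s⁻¹ * x :=
    Lp.coeFn_compMeasurePreserving _ (measurePreserving_mul_left m s⁻¹)
  have h2 : (lam m r ξ : H → ℂ) =ᵐ[m] (ξ : H → ℂ) ∘ fun x => r⁻¹ * x :=
    Lp.coeFn_compMeasurePreserving _ (measurePreserving_mul_left m r⁻¹)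
  have h3 : (lam m (s * r) ξ : H → ℂ) =ᵐ[m] (ξ : H → ℂ) ∘ fun x => (s * r)⁻¹ * x :=
    Lp.coeFn_compMeasurePreserving _ (measurePreserving_mul_left m (s * r)⁻¹)
  have h4 := (measurePreserving_mul_left m s⁻¹).quasiMeasurePreserving.ae_eq_comp h2
  filter_upwards [h1, h3, h4] with x e1 e3 e4
  rw [e1, e3, e4]
  simp only [Function.comp_apply, mul_inv_rev, mul_assoc]

omit [LocallyCompactSpace H] [SecondCountableTopology H] [T2Space H] in
lemma lam_one (m : Measure H) [m.IsHaarMeasure] (ξ : Lp ℂ 2 m) : lam m (1 : H) ξ = ξ := by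
  refine Lp.ext ?_
  have h1 : (lam m (1 : H) ξ : H → ℂ) =ᵐ[m] (ξ : H → ℂ) ∘ fun x => (1 : H)⁻¹ * x :=
    Lp.coeFn_compMeasurePreserving _ (measurePreserving_mul_left m (1 : H)⁻¹)
  filter_upwards [h1] with x e1
  rw [e1]
  simp

lemma int_inner (m : Measure H) [m.IsHaarMeasure] (μ : Measure H) [IsFiniteMeasure μ]
    (ξ η : Lp ℂ 2 m) : ∫ s, (inner ℂ η (lam m s ξ) : ℂ) ∂μ = inner ℂ η (lamM m μ ξ) := by
  rw [lamM_apply]
  exact integral_inner (lam_int m μ ξ) η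

lemma int_inner_int (m : Measure H) [m.IsHaarMeasure] (μ : Measure H) [IsFiniteMeasure μ]
    (ξ η : Lp ℂ 2 m) : Integrable (fun s => (inner ℂ η (lam m s ξ) : ℂ)) μ :=
  (lam_int m μ ξ).const_inner η

lemma int_re (m : Measure H) [m.IsHaarMeasure] (μ : Measure H) [IsFiniteMeasure μ]
    (ξ η : Lp ℂ 2 m) : ∫ s, (inner ℂ η (lam m s ξ) : ℂ).re ∂μ = (inner ℂ η (lamM m μ ξ) : ℂ).re := by
  rw [← int_inner m μ ξ η]
  exact integral_re (int_inner_int m μ ξ η)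

theorem t_EN2 : S_EN2 := by
  intro H _ _ _ _ _ _ _ _ m _ ρ _ ξ
  have h1 : ∀ s, ‖lam m s ξ - ξ‖ ^ 2 = 2 * ‖ξ‖ ^ 2 - 2 * (inner ℂ ξ (lam m s ξ) : ℂ).re := by
    intro s
    rw [@norm_sub_sq ℂ, (lam m s).norm_map]
    have h2 : RCLike.re (inner ℂ (lam m s ξ) ξ : ℂ) = (inner ℂ ξ (lam m s ξ) : ℂ).re :=
      inner_re_symm _ _
    rw [h2]
    ring
  have h3 : (inner ℂ (lamM m ρ ξ) ξ : ℂ).re = (inner ℂ ξ (lamM m ρ ξ) : ℂ).re :=
    inner_re_symm (𝕜 := ℂ) _ _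
  simp_rw [h1]
  have h5 : Integrable (fun s => (inner ℂ ξ (lam m s ξ) : ℂ).re) ρ := (int_inner_int m ρ ξ ξ).re
  rw [integral_sub (integrable_const _) (h5.const_mul 2), integral_const,
    integral_const_mul, int_re, h3]
  simp
  ring

theorem t_LTV : S_LTV := by
  intro H _ _ _ _ _ _ _ _ m _ μ ν _ _ c hc
  refine ⟨LinearMap.mkContinuous_norm_le _ measureReal_nonneg _, fun h => ?_⟩
  refine ContinuousLinearMap.opNorm_le_bound _ hc fun ξ => ?_
  set D : Lp ℂ 2 m := (lamM m μ - lamM m ν) ξ with hD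
  rcases eq_or_ne D 0 with hD0 | hD0
  · rw [hD0, norm_zero]
    positivity
  rcases eq_or_ne ξ 0 with hξ0 | hξ0
  · exact absurd (by rw [hD, hξ0, map_zero]) hD0
  have hDp : 0 < ‖D‖ := norm_pos_iff.2 hD0
  have hξp : 0 < ‖ξ‖ := norm_pos_iff.2 hξ0
  have hcont : Continuous fun s => (inner ℂ D (lam m s ξ) : ℂ).re :=
    Complex.continuous_re.comp (continuous_const.inner (lam_cont m ξ))
  have h1 := h (fun s => (inner ℂ D (lam m s ξ) : ℂ).re / (‖D‖ * ‖ξ‖))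
    (hcont.div_const _).measurable (by
      intro s
      rw [abs_div, abs_of_pos (by positivity : 0 < ‖D‖ * ‖ξ‖), div_le_one (by positivity)]
      refine (Complex.abs_re_le_norm _).trans ?_
      have h2 := norm_inner_le_norm (𝕜 := ℂ) D (lam m s ξ)
      rwa [(lam m s).norm_map] at h2)
  rw [integral_div, integral_div, int_re, int_re, ← sub_div, ← Complex.sub_re, ← inner_sub_right,
    abs_div, abs_of_pos (by positivity : 0 < ‖D‖ * ‖ξ‖), div_le_iff₀ (by positivity)] at h1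
  have h2 : lamM m μ ξ - lamM m ν ξ = D := rfl
  rw [h2] at h1
  have h3 : (inner ℂ D D : ℂ).re = ‖D‖ ^ 2 := inner_self_eq_norm_sq (𝕜 := ℂ) D
  rw [h3, abs_of_nonneg (by positivity)] at h1
  have h4 : ‖D‖ * ‖D‖ ≤ ‖D‖ * (c * ‖ξ‖) := by nlinarith
  exact le_of_mul_le_mul_left h4 hDp

theorem t_LSA : S_LSA := by
  intro H _ _ _ _ _ _ _ _ m _ μ _ hμ ξ η
  have h1 : (inner ℂ (lamM m μ ξ) η : ℂ) = ∫ s, (inner ℂ (lam m s ξ) η : ℂ) ∂μ := by
    rw [← inner_conj_symm, ← int_inner m μ ξ η, ← integral_conj]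
    refine integral_congr_ae (ae_of_all _ fun s => ?_)
    exact inner_conj_symm _ _
  have h2 : ∀ s : H, (inner ℂ (lam m s ξ) η : ℂ) = inner ℂ ξ (lam m s⁻¹ η) := by
    intro s
    have e : η = lam m s (lam m s⁻¹ η) := by rw [lam_mul, mul_inv_cancel, lam_one]
    conv_lhs => rw [e]
    exact LinearIsometry.inner_map_map (𝕜 := ℂ) (E := Lp ℂ 2 m) (E' := Lp ℂ 2 m) (lam m s) _ _
  have h3 : ∫ s, (inner ℂ ξ (lam m s⁻¹ η) : ℂ) ∂μ = ∫ s, (inner ℂ ξ (lam m s η) : ℂ) ∂μ := by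
    conv_rhs => rw [← hμ]
    rw [integral_map measurable_inv.aemeasurable]
    exact (int_inner_int m _ η ξ).aestronglyMeasurable
  rw [h1]
  simp_rw [h2]
  rw [h3]
  exact int_inner m μ η ξ

end Pool.Agent.Q198.AC
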